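import Mathlib
import Pool.Agent.H99.LK.Upper
import Pool.Agent.H99.LK.Lower

/-!
# The largest clique partition number of graphs with a given large clique cover number
-/

open Filter Topology

namespace Pool.Agent.Results.MP_10f644_co.LargeCovers

open Pool.Agent.H22.F10f644 Pool.Agent.H99.LK

/-- The reals `c` such that for infinitely many `n` some graph `G` on `n` vertices with clique
cover number `k` has clique partition number above `c n²`. -/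
def Reach (k : ℕ) : Set ℝ :=
  {c | ∀ N : ℕ, ∃ n : ℕ, N ≤ n ∧ ∃ G : SimpleGraph (Fin n), cc G = k ∧ c * (n : ℝ) ^ 2 < cp G}

/-- `r k`: the upper limit, as `n → ∞`, of `n⁻²` times the largest clique partition number of the
graphs on `n` vertices with clique cover number `k`. -/
noncomputable def r (k : ℕ) : ℝ := sSup (Reach k)

theorem limit_of_bounds
    (ha : ∀ ε : ℝ, 0 < ε → ∃ k0 : ℕ, ∀ k : ℕ, k0 ≤ k → ∀ᶠ n : ℕ in atTop,
      ∀ G : SimpleGraph (Fin n), cc G ≤ k →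
      (cp G : ℝ) ≤ (1 / 4 - (1 - ε) / (2 * √(2 * k))) * (n : ℝ) ^ 2)
    (hb : ∀ ε : ℝ, 0 < ε → ∃ k0 : ℕ, ∀ k : ℕ, k0 ≤ k → ∀ᶠ n : ℕ in atTop,
      ∃ G : SimpleGraph (Fin n), cc G = k ∧
      (1 / 4 - (1 + ε) / (2 * √(2 * k))) * (n : ℝ) ^ 2 ≤ cp G) :
    Tendsto (fun k : ℕ => √k * (1 / 4 - r k)) atTop (𝓝 (1 / (2 * √2))) := by
  have h2 : 0 < √2 := Real.sqrt_pos.2 (by norm_num)
  rw [Metric.tendsto_atTop]
  intro δ hδ
  obtain ⟨ε, hε⟩ : ∃ ε : ℝ, ε = δ / 2 := ⟨_, rfl⟩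
  have hε0 : 0 < ε := by rw [hε]; positivity
  obtain ⟨ka, hka⟩ := ha ε hε0
  obtain ⟨kb, hkb⟩ := hb ε hε0
  refine ⟨max (max ka kb) 1, fun k hk => ?_⟩
  have hk1 : ka ≤ k := (le_max_left _ _).trans ((le_max_left _ _).trans hk)
  have hk2 : kb ≤ k := (le_max_right _ _).trans ((le_max_left _ _).trans hk)
  have hk3 : 1 ≤ k := (le_max_right _ _).trans hk
  have hkr : (0 : ℝ) < k := by exact_mod_cast hk3
  have hsk : 0 < √(k : ℝ) := Real.sqrt_pos.2 hkr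
  have hs : √(2 * (k : ℝ)) = √2 * √k := Real.sqrt_mul (by norm_num) _
  -- upper bound for the members of `Reach k`
  have hup : ∀ c ∈ Reach k, c ≤ 1 / 4 - (1 - ε) / (2 * √(2 * k)) := by
    intro c hc
    obtain ⟨N, hN⟩ := eventually_atTop.1 (hka k hk1)
    obtain ⟨n, hn, G, hG, hcG⟩ := hc (N + 1)
    have h3 := hN n (by omega) G hG.le
    have hn0 : (0 : ℝ) < (n : ℝ) ^ 2 := by
      have : 0 < n := by omega
      positivity
    exact (le_of_mul_le_mul_right ((hcG.le.trans h3)) hn0)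
  have hlow : ∀ c, c < 1 / 4 - (1 + ε) / (2 * √(2 * k)) → c ∈ Reach k := by
    intro c hc N
    obtain ⟨M, hM⟩ := eventually_atTop.1 (hkb k hk2)
    obtain ⟨G, hG, hcG⟩ := hM (max M N + 1) (by have := le_max_left M N; omega)
    refine ⟨max M N + 1, by have := le_max_right M N; omega, G, hG, ?_⟩
    have hn0 : (0 : ℝ) < (((max M N + 1 : ℕ)) : ℝ) ^ 2 := by positivity
    exact (mul_lt_mul_of_pos_right hc hn0).trans_le hcG
  have hne : (Reach k).Nonempty := ⟨_, hlow _ (sub_one_lt _)⟩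
  have h3 : r k ≤ 1 / 4 - (1 - ε) / (2 * √(2 * k)) := csSup_le hne hup
  have h4 : 1 / 4 - (1 + ε) / (2 * √(2 * k)) ≤ r k := by
    apply le_of_forall_lt
    intro c hc
    obtain ⟨c', hc1, hc2⟩ := exists_between hc
    exact hc1.trans_le (le_csSup ⟨_, hup⟩ (hlow c' hc2))
  rw [hs] at h3 h4
  have e1 : √(k : ℝ) * ((1 - ε) / (2 * (√2 * √k))) = (1 - ε) * (1 / (2 * √2)) := by
    field_simp
  have e2 : √(k : ℝ) * ((1 + ε) / (2 * (√2 * √k))) = (1 + ε) * (1 / (2 * √2)) := by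
    field_simp
  have h5 : (1 - ε) * (1 / (2 * √2)) ≤ √(k : ℝ) * (1 / 4 - r k) := by
    rw [← e1]
    exact mul_le_mul_of_nonneg_left (by linarith) hsk.le
  have h6 : √(k : ℝ) * (1 / 4 - r k) ≤ (1 + ε) * (1 / (2 * √2)) := by
    rw [← e2]
    exact mul_le_mul_of_nonneg_left (by linarith) hsk.le
  have h7 : 1 / (2 * √2) ≤ 1 := by
    rw [div_le_one (by positivity)]
    have : 1 ≤ √2 := Real.one_le_sqrt.2 (by norm_num)
    linarith
  have h8 : 0 < 1 / (2 * √2) := by positivity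
  rw [Real.dist_eq, abs_lt]
  constructor <;> nlinarith

/-- **The second order term for graphs with large clique cover number.** -/
theorem result :
    (∀ ε : ℝ, 0 < ε → ∃ k0 : ℕ, ∀ k : ℕ, k0 ≤ k → ∀ᶠ n : ℕ in atTop,
      ∀ G : SimpleGraph (Fin n), cc G ≤ k →
      (cp G : ℝ) ≤ (1 / 4 - (1 - ε) / (2 * √(2 * k))) * (n : ℝ) ^ 2) ∧
    (∀ ε : ℝ, 0 < ε → ∃ k0 : ℕ, ∀ k : ℕ, k0 ≤ k → ∀ᶠ n : ℕ in atTop,
      ∃ G : SimpleGraph (Fin n), cc G = k ∧
      (1 / 4 - (1 + ε) / (2 * √(2 * k))) * (n : ℝ) ^ 2 ≤ cp G) ∧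
    Tendsto (fun k : ℕ => √k * (1 / 4 - r k)) atTop (𝓝 (1 / (2 * √2))) :=
  ⟨upper, lower, limit_of_bounds upper lower⟩

end Pool.Agent.Results.MP_10f644_co.LargeCovers
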