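import Mathlib
import Pool.Agent.H99.TF.Robust

/-!
# The constant of the graphs with few twin-free triangles is `1/56`
-/

open Filter

namespace Pool.Agent.Results.MP_10f644_co.TriangleFreeBlowups

open Pool.Agent.H22.F10f644 Pool.Agent.H29.CPR Pool.Agent.H99.TF

/-- The set of the constants `c` of the question of Erdős, Faudree and Ordman, for the graphs
which are clique blow-ups of triangle-free graphs. -/
def GoodTF : Set ℝ :=
  {c | ∀ N : ℕ, ∃ n : ℕ, N ≤ n ∧ ∃ G : SimpleGraph (Fin n), IsTFBlowup G ∧ G ≠ ⊥ ∧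
    c * (n : ℝ) ^ 2 < (cp G : ℝ) / cc G}

/-- The set of the constants `c` of the question of Erdős, Faudree and Ordman, for the graphs
with `o(n³)` twin-free triples. -/
def GoodFew : Set ℝ :=
  {c | ∀ δ : ℝ, 0 < δ → ∀ N : ℕ, ∃ n : ℕ, N ≤ n ∧ ∃ G : SimpleGraph (Fin n),
    ((twinFreeTriples G).card : ℝ) ≤ δ * (n : ℝ) ^ 3 ∧ G ≠ ⊥ ∧
    c * (n : ℝ) ^ 2 < (cp G : ℝ) / cc G}

theorem cc_pos {n : ℕ} (G : SimpleGraph (Fin n)) (hG : G ≠ ⊥) : (0 : ℝ) < cc G := by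
  obtain ⟨F, hF, hFc⟩ := cc_spec G
  have : cc G ≠ 0 := by
    intro h0
    rw [h0, Finset.card_eq_zero] at hFc
    apply hG
    ext u v
    simp only [SimpleGraph.bot_adj, iff_false]
    intro huv
    obtain ⟨K, hK, -⟩ := hF.2 u v huv
    rw [hFc] at hK
    exact absurd hK (Finset.notMem_empty K)
  exact_mod_cast Nat.pos_of_ne_zero this

/-- **The constant is exactly `1/56` for the graphs without (or with few) twin-free triangles.** -/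
theorem result :
    (∀ ε : ℝ, 0 < ε → ∃ δ : ℝ, 0 < δ ∧ ∀ᶠ n : ℕ in atTop, ∀ G : SimpleGraph (Fin n),
      ((twinFreeTriples G).card : ℝ) ≤ δ * (n : ℝ) ^ 3 → G ≠ ⊥ →
      (cp G : ℝ) / cc G ≤ (1 / 56 + ε) * (n : ℝ) ^ 2) ∧
    (∀ (n : ℕ) (G : SimpleGraph (Fin n)), twinFreeTriples G = ∅ ↔ IsTFBlowup G) ∧
    (∀ m : ℕ, 0 < m → ∃ G : SimpleGraph (Fin (7 * m)), IsTFBlowup G ∧ G ≠ ⊥ ∧
      1 / 56 * ((7 * m : ℕ) : ℝ) ^ 2 < (cp G : ℝ) / cc G) ∧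
    IsGreatest GoodTF (1 / 56) ∧ IsGreatest GoodFew (1 / 56) := by
  have h1 : ∀ ε : ℝ, 0 < ε → ∃ δ : ℝ, 0 < δ ∧ ∀ᶠ n : ℕ in atTop, ∀ G : SimpleGraph (Fin n),
      ((twinFreeTriples G).card : ℝ) ≤ δ * (n : ℝ) ^ 3 → G ≠ ⊥ →
      (cp G : ℝ) / cc G ≤ (1 / 56 + ε) * (n : ℝ) ^ 2 := by
    intro ε hε
    obtain ⟨δ, hδ, n0, hn0⟩ := upper_robust ε hε
    refine ⟨δ, hδ, ?_⟩
    filter_upwards [eventually_ge_atTop n0] with n hn G hG hGne
    have h2 := hn0 n hn G hG hGne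
    rw [div_le_iff₀ (cc_pos G hGne)]
    have e : (1 / 56 + ε) * (cc G : ℝ) * (n : ℝ) ^ 2
        = (1 / 56 + ε) * (n : ℝ) ^ 2 * (cc G : ℝ) := by ring
    linarith
  have hzero : ∀ {n : ℕ} (G : SimpleGraph (Fin n)), IsTFBlowup G → ∀ δ : ℝ, 0 < δ →
      ((twinFreeTriples G).card : ℝ) ≤ δ * (n : ℝ) ^ 3 := by
    intro n G hG δ hδ
    rw [(isTFBlowup_iff G).1 hG, Finset.card_empty]
    push_cast
    positivity
  have hsub : GoodTF ⊆ GoodFew := by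
    intro c hc δ hδ N
    obtain ⟨n, hn, G, hG, hGne, hcG⟩ := hc N
    exact ⟨n, hn, G, hzero G hG δ hδ, hGne, hcG⟩
  have hmem : (1 / 56 : ℝ) ∈ GoodTF := by
    intro N
    obtain ⟨G, h2, h3, h4⟩ := lower (N + 1) (Nat.succ_pos N)
    exact ⟨7 * (N + 1), by omega, G, h2, h3, h4⟩
  have hup : ∀ c ∈ GoodFew, c ≤ 1 / 56 := by
    intro c hc
    by_contra hlt
    push Not at hlt
    obtain ⟨δ, hδ, hev⟩ := h1 (c - 1 / 56) (by linarith)
    obtain ⟨n0, hn0⟩ := eventually_atTop.1 hev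
    obtain ⟨n, hn, G, hG, hGne, hcG⟩ := hc δ hδ n0
    have := hn0 n hn G hG hGne
    have e : (1 / 56 + (c - 1 / 56)) * (n : ℝ) ^ 2 = c * (n : ℝ) ^ 2 := by ring
    rw [e] at this
    exact absurd hcG (not_lt.2 this)
  exact ⟨h1, fun n G => (isTFBlowup_iff G).symm, lower, ⟨hmem, fun c hc => hup c (hsub hc)⟩,
    ⟨hsub hmem, hup⟩⟩

end Pool.Agent.Results.MP_10f644_co.TriangleFreeBlowups
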