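import Mathlib
import Pool.Agent.H99.CP.Main49

/-!
# The ratio of the clique partition number to the clique cover number is at most `n² / 49`
-/

open Filter

namespace Pool.Agent.Results.MP_10f644_co.UpperBound49

open Pool.Agent.H22.F10f644 Pool.Agent.H29.CPR Pool.Agent.H69.CPR Pool.Agent.H99.CP.M49

/-- The set of the constants `c` of the question of Erdős, Faudree and Ordman. -/
def Good : Set ℝ :=
  {c | ∀ N : ℕ, ∃ n : ℕ, N ≤ n ∧ ∃ G : SimpleGraph (Fin n), G ≠ ⊥ ∧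
    c * (n : ℝ) ^ 2 < (cp G : ℝ) / cc G}

theorem cc_pos {n : ℕ} (G : SimpleGraph (Fin n)) (hG : G ≠ ⊥) : (0 : ℝ) < cc G := by
  obtain ⟨F, hF, hFc⟩ := cc_spec G
  have : cc G ≠ 0 := by
    intro h0
    rw [h0, Finset.card_eq_zero] at hFc
    apply hG
    ext u v
    simp only [SimpleGraph.bot_adj, iff_false]
    intro huv
    obtain ⟨K, hK, -⟩ := hF.2 u v huv
    rw [hFc] at hK
    exact absurd hK (Finset.notMem_empty K)
  exact_mod_cast Nat.pos_of_ne_zero this

/-- **Upper bound `1/49`.** -/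
theorem result :
    (∀ ε : ℝ, 0 < ε → ∀ᶠ n : ℕ in atTop, ∀ G : SimpleGraph (Fin n), G ≠ ⊥ →
      (cp G : ℝ) / cc G ≤ (1 / 49 + ε) * (n : ℝ) ^ 2) ∧
    (∀ k : ℕ, ∀ ε : ℝ, 0 < ε → ∀ᶠ n : ℕ in atTop, ∀ G : SimpleGraph (Fin n), cc G = k →
      (cp G : ℝ) ≤ (bound49 k + ε) * (n : ℝ) ^ 2) ∧
    (∀ c ∈ Good, c ≤ 1 / 49) := by
  have h1 : ∀ ε : ℝ, 0 < ε → ∀ᶠ n : ℕ in atTop, ∀ G : SimpleGraph (Fin n), G ≠ ⊥ →
      (cp G : ℝ) / cc G ≤ (1 / 49 + ε) * (n : ℝ) ^ 2 := by
    intro ε hε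
    obtain ⟨n0, hn0⟩ := upper_of_dual (1 / 49 + ε / 2) (by linarith) 25
      (by push_cast; linarith) (by
      intro k _
      rcases Nat.eq_zero_or_pos k with hk | hk
      · subst hk
        refine ⟨0, 0, le_rfl, ?_, by simp⟩
        intro D T y _
        have : tot (tg T) y = 0 := by
          unfold tot
          refine Finset.sum_eq_zero fun u _ => Finset.sum_eq_zero fun v _ => ?_
          rw [if_neg]
          rintro ⟨-, i, -⟩
          exact i.elim0
        rw [this]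
        simp
      · obtain ⟨C, hC⟩ := dualBound_bound49 k (ε / 2) (by linarith)
        have hk1 : (1 : ℝ) ≤ k := by exact_mod_cast hk
        have hb := bound49_le k
        have h2 := mul_le_mul_of_nonneg_left hk1 hε.le
        exact ⟨bound49 k + ε / 2, C, by linarith [bound49_nonneg k], hC, by linarith⟩) (ε / 2)
          (by linarith)
    filter_upwards [eventually_ge_atTop n0] with n hn G hG
    have h2 := hn0 n hn G hG
    rw [div_le_iff₀ (cc_pos G hG)]
    have e : (1 / 49 + ε / 2 + ε / 2) * (cc G : ℝ) * (n : ℝ) ^ 2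
        = (1 / 49 + ε) * (n : ℝ) ^ 2 * (cc G : ℝ) := by ring
    linarith
  refine ⟨h1, ?_, ?_⟩
  · intro k ε hε
    obtain ⟨C, hC⟩ := dualBound_bound49 k (ε / 2) (by linarith)
    obtain ⟨n0, hn0⟩ := transfer (by linarith [bound49_nonneg k]) hC (ε / 2) (by linarith)
    filter_upwards [eventually_ge_atTop n0] with n hn G hG
    obtain ⟨F, hF, hFc⟩ := cc_spec G
    obtain ⟨S, hS⟩ := exists_types G F hF (hFc.trans hG)
    rw [hS]
    have h2 := hn0 n hn S
    have e : (bound49 k + ε / 2 + ε / 2) * (n : ℝ) ^ 2 = (bound49 k + ε) * (n : ℝ) ^ 2 := by ring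
    rw [e] at h2
    exact h2
  · intro c hc
    by_contra hlt
    push Not at hlt
    obtain ⟨n0, hn0⟩ := eventually_atTop.1 (h1 (c - 1 / 49) (by linarith))
    obtain ⟨n, hn, G, hG, hcG⟩ := hc n0
    have := hn0 n hn G hG
    have e : (1 / 49 + (c - 1 / 49)) * (n : ℝ) ^ 2 = c * (n : ℝ) ^ 2 := by ring
    rw [e] at this
    exact absurd hcG (not_lt.2 this)

end Pool.Agent.Results.MP_10f644_co.UpperBound49
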